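import Pool.Agent.Y579.ST.Stm

/-! ORD: a computable linear order with a cut both of whose sides are immune.
The order is given by a computable sequence of triadic numbers which converges to a real number
that is neither the infimum nor the supremum of a c.e. part of the sequence. -/

set_option autoImplicit false

namespace Pool.Agent.Y548.ST

open Pool.Agent.Helper446 Nat.Partrec

/-- stage `s` of the `e`-th c.e. set -/
def inW (e s n : ℕ) : Bool := (Code.evaln s (Denumerable.ofNat Code e) n).isSome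

/-- the first `e + 1` digits of the number `v / 3 ^ n` -/
def yy (v n e : ℕ) : ℕ := v * 3 ^ (e + 1) / 3 ^ n

def amin (l : List ℕ) (e : ℕ) (n : ℕ) : ℕ :=
  Nat.rec (3 ^ (e + 1)) (fun k ih => if inW e l.length k then min ih (yy (l.getD k 0) k e) else ih) n

def amax (l : List ℕ) (e : ℕ) (n : ℕ) : ℕ :=
  Nat.rec 0 (fun k ih => if inW e l.length k then max ih (yy (l.getD k 0) k e) else ih) n

/-- a number among `p, p + 1, p + 2` different from `a`, `b` -/
def ch (p a b : ℕ) : ℕ :=
  if p ≠ a ∧ p ≠ b then p else if p + 1 ≠ a ∧ p + 1 ≠ b then p + 1 else p + 2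

def pre (l : List ℕ) (e : ℕ) : ℕ :=
  Nat.rec 0 (fun k ih => ch (3 * ih) (amin l k l.length) (amax l k l.length)) e

def xs (s : ℕ) : List ℕ := Nat.rec [] (fun _ l => l ++ [pre l l.length]) s

def X (s : ℕ) : ℕ := pre (xs s) s

theorem xs_succ (s : ℕ) : xs (s + 1) = xs s ++ [pre (xs s) (xs s).length] := rfl

theorem xs_len (s : ℕ) : (xs s).length = s := by
  induction s with
  | zero => rfl
  | succ s ih => rw [xs_succ, List.length_append, ih]; rfl

theorem xs_get (s n : ℕ) (h : n < s) : (xs s).getD n 0 = X n := by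
  induction s with
  | zero => omega
  | succ s ih =>
    rw [xs_succ, xs_len]
    rcases Nat.lt_succ_iff_lt_or_eq.1 h with h1 | h1
    · rw [List.getD_append _ _ _ _ (by rw [xs_len]; exact h1)]
      exact ih h1
    · subst h1
      rw [List.getD_append_right _ _ _ _ (by rw [xs_len])]
      simp [xs_len, X]

def Pf (e s : ℕ) : ℕ := pre (xs s) e
def Af (e s : ℕ) : ℕ := amin (xs s) e s
def Bf (e s : ℕ) : ℕ := amax (xs s) e s
def Y (n e : ℕ) : ℕ := yy (X n) n e

theorem Pf_zero (s : ℕ) : Pf 0 s = 0 := rfl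

theorem Pf_succ (e s : ℕ) : Pf (e + 1) s = ch (3 * Pf e s) (Af e s) (Bf e s) := by
  have : Pf (e + 1) s = ch (3 * Pf e s) (amin (xs s) e (xs s).length)
    (amax (xs s) e (xs s).length) := rfl
  rw [this, xs_len]; rfl

theorem ch_ne (p a b : ℕ) : ch p a b ≠ a ∧ ch p a b ≠ b := by
  unfold ch; split_ifs <;> omega

theorem ch_le (p a b : ℕ) : p ≤ ch p a b ∧ ch p a b ≤ p + 2 := by
  unfold ch; split_ifs <;> omega

theorem amin_le (s e : ℕ) (m : ℕ) (hm : m ≤ s) :
    (amin (xs s) e m ≤ 3 ^ (e + 1)) ∧ (∀ n < m, inW e s n = true → amin (xs s) e m ≤ Y n e) ∧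
    (amin (xs s) e m = 3 ^ (e + 1) ∨ ∃ n < m, inW e s n = true ∧ amin (xs s) e m = Y n e) := by
  induction m with
  | zero => exact ⟨le_refl _, fun n h => absurd h (Nat.not_lt_zero _), Or.inl rfl⟩
  | succ m ih =>
    obtain ⟨h1, h2, h3⟩ := ih (by omega)
    have e1 : amin (xs s) e (m + 1) = if inW e s m then min (amin (xs s) e m) (Y m e)
        else amin (xs s) e m := by
      have : amin (xs s) e (m + 1) = if inW e (xs s).length m then
        min (amin (xs s) e m) (yy ((xs s).getD m 0) m e) else amin (xs s) e m := rfl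
      rw [this, xs_len, xs_get s m (by omega)]; rfl
    rw [e1]
    split_ifs with hw
    · refine ⟨(min_le_left _ _).trans h1, ?_, ?_⟩
      · intro n hn hw'
        rcases Nat.lt_succ_iff_lt_or_eq.1 hn with h4 | h4
        · exact (min_le_left _ _).trans (h2 n h4 hw')
        · subst h4; exact min_le_right _ _
      · rcases min_choice (amin (xs s) e m) (Y m e) with h4 | h4
        · rw [h4]
          rcases h3 with h3 | ⟨n, hn, hw', h5⟩
          · exact Or.inl h3
          · exact Or.inr ⟨n, by omega, hw', h5⟩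
        · exact Or.inr ⟨m, by omega, hw, h4⟩
    · refine ⟨h1, ?_, ?_⟩
      · intro n hn hw'
        rcases Nat.lt_succ_iff_lt_or_eq.1 hn with h4 | h4
        · exact h2 n h4 hw'
        · subst h4; exact absurd hw' hw
      · rcases h3 with h3 | ⟨n, hn, hw', h5⟩
        · exact Or.inl h3
        · exact Or.inr ⟨n, by omega, hw', h5⟩

theorem amax_le (s e : ℕ) (m : ℕ) (hm : m ≤ s) :
    (∀ n < m, inW e s n = true → Y n e ≤ amax (xs s) e m) ∧
    (amax (xs s) e m = 0 ∨ ∃ n < m, inW e s n = true ∧ amax (xs s) e m = Y n e) := by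
  induction m with
  | zero => exact ⟨fun n h => absurd h (Nat.not_lt_zero _), Or.inl rfl⟩
  | succ m ih =>
    obtain ⟨h2, h3⟩ := ih (by omega)
    have e1 : amax (xs s) e (m + 1) = if inW e s m then max (amax (xs s) e m) (Y m e)
        else amax (xs s) e m := by
      have : amax (xs s) e (m + 1) = if inW e (xs s).length m then
        max (amax (xs s) e m) (yy ((xs s).getD m 0) m e) else amax (xs s) e m := rfl
      rw [this, xs_len, xs_get s m (by omega)]; rfl
    rw [e1]
    split_ifs with hw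
    · refine ⟨?_, ?_⟩
      · intro n hn hw'
        rcases Nat.lt_succ_iff_lt_or_eq.1 hn with h4 | h4
        · exact (h2 n h4 hw').trans (le_max_left _ _)
        · subst h4; exact le_max_right _ _
      · rcases max_choice (amax (xs s) e m) (Y m e) with h4 | h4
        · rw [h4]
          rcases h3 with h3 | ⟨n, hn, hw', h5⟩
          · exact Or.inl h3
          · exact Or.inr ⟨n, by omega, hw', h5⟩
        · exact Or.inr ⟨m, by omega, hw, h4⟩
    · refine ⟨?_, ?_⟩
      · intro n hn hw'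
        rcases Nat.lt_succ_iff_lt_or_eq.1 hn with h4 | h4
        · exact h2 n h4 hw'
        · subst h4; exact absurd hw' hw
      · rcases h3 with h3 | ⟨n, hn, hw', h5⟩
        · exact Or.inl h3
        · exact Or.inr ⟨n, by omega, hw', h5⟩

theorem inW_mono {e s t n : ℕ} (hst : s ≤ t) (h : inW e s n = true) : inW e t n = true := by
  unfold inW at *
  rw [Option.isSome_iff_exists] at *
  obtain ⟨a, ha⟩ := h
  exact ⟨a, Code.evaln_mono hst ha⟩

theorem Pf_lt (e s : ℕ) : Pf e s < 3 ^ e := by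
  induction e with
  | zero => rw [Pf_zero]; norm_num
  | succ e ih =>
    rw [Pf_succ, pow_succ]
    have := (ch_le (3 * Pf e s) (Af e s) (Bf e s)).2
    omega

theorem Y_lt (n e : ℕ) : Y n e < 3 ^ (e + 1) := by
  unfold Y yy
  rw [Nat.div_lt_iff_lt_mul (by positivity), mul_comm]
  exact Nat.mul_lt_mul_of_pos_left (Pf_lt n n) (by positivity)

theorem Af_anti (e : ℕ) : Antitone (Af e) := by
  refine antitone_nat_of_succ_le fun s => ?_
  rcases (amin_le s e s le_rfl).2.2 with h | ⟨n, hn, hw, h⟩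
  · unfold Af; rw [h]; exact (amin_le (s + 1) e (s + 1) le_rfl).1
  · unfold Af; rw [h]
    exact (amin_le (s + 1) e (s + 1) le_rfl).2.1 n (by omega) (inW_mono (by omega) hw)

theorem Bf_mono (e : ℕ) : Monotone (Bf e) := by
  refine monotone_nat_of_le_succ fun s => ?_
  rcases (amax_le s e s le_rfl).2 with h | ⟨n, hn, hw, h⟩
  · unfold Bf; rw [h]; exact Nat.zero_le _
  · unfold Bf; rw [h]
    exact (amax_le (s + 1) e (s + 1) le_rfl).1 n (by omega) (inW_mono (by omega) hw)

theorem Bf_le (e s : ℕ) : Bf e s ≤ 3 ^ (e + 1) := by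
  rcases (amax_le s e s le_rfl).2 with h | ⟨n, hn, hw, h⟩
  · unfold Bf; rw [h]; exact Nat.zero_le _
  · unfold Bf; rw [h]; exact (Y_lt n e).le

theorem stab {f : ℕ → ℕ} (hf : Antitone f) : ∃ N, ∀ n, N ≤ n → f n = f N := by
  classical
  obtain ⟨N, hN⟩ : ∃ N, ∀ n, f N ≤ f n := by
    have h : ∃ v, ∃ n, f n = v := ⟨_, 0, rfl⟩
    obtain ⟨N, hN⟩ := Nat.find_spec h
    exact ⟨N, fun n => hN ▸ Nat.find_min' h ⟨n, rfl⟩⟩
  exact ⟨N, fun n hn => le_antisymm (hf hn) (hN n)⟩

theorem stabP (e : ℕ) : ∃ N, ∀ n, N ≤ n → Pf e n = Pf e N := by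
  induction e with
  | zero => exact ⟨0, fun n _ => rfl⟩
  | succ e ih =>
    obtain ⟨N1, h1⟩ := ih
    obtain ⟨N2, h2⟩ := stab (Af_anti e)
    obtain ⟨N3, h3⟩ := stab (f := fun s => 3 ^ (e + 1) - Bf e s) (by
      intro s t h; have := Bf_mono e h; dsimp only; omega)
    refine ⟨max N1 (max N2 N3), fun n hn => ?_⟩
    have a1 := h1 n (by omega)
    have a1' := h1 (max N1 (max N2 N3)) (by omega)
    have a2 := h2 n (by omega)
    have a2' := h2 (max N1 (max N2 N3)) (by omega)
    have a3 := h3 n (by omega)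
    have a3' := h3 (max N1 (max N2 N3)) (by omega)
    have b1 := Bf_le e n
    have b2 := Bf_le e (max N1 (max N2 N3))
    have b3 := Bf_le e N3
    have a4 : Bf e n = Bf e (max N1 (max N2 N3)) := by omega
    rw [Pf_succ, Pf_succ, a1, a1', a2, a2', a4]

/-- the limit -/
noncomputable def al (e : ℕ) : ℕ := Pf e (stabP e).choose

theorem al_spec (e n : ℕ) (h : (stabP e).choose ≤ n) : Pf e n = al e :=
  (stabP e).choose_spec n h

theorem al_succ (e : ℕ) : 3 * al e ≤ al (e + 1) ∧ al (e + 1) ≤ 3 * al e + 2 := by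
  have h1 := al_spec e (max (stabP e).choose (stabP (e + 1)).choose) (le_max_left _ _)
  have h2 := al_spec (e + 1) (max (stabP e).choose (stabP (e + 1)).choose) (le_max_right _ _)
  rw [Pf_succ, h1] at h2
  rw [← h2]
  exact ch_le _ _ _

theorem al_le (e d : ℕ) : al e * 3 ^ d ≤ al (e + d) ∧ al (e + d) + 1 ≤ (al e + 1) * 3 ^ d := by
  induction d with
  | zero => simp
  | succ d ih =>
    have h := al_succ (e + d)
    rw [pow_succ]
    have e1 : e + (d + 1) = e + d + 1 := rfl
    rw [e1]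
    constructor
    · calc al e * (3 ^ d * 3) = 3 * (al e * 3 ^ d) := by ring
        _ ≤ 3 * al (e + d) := Nat.mul_le_mul_left _ ih.1
        _ ≤ _ := h.1
    · calc al (e + d + 1) + 1 ≤ 3 * (al (e + d) + 1) := by omega
        _ ≤ 3 * ((al e + 1) * 3 ^ d) := Nat.mul_le_mul_left _ ih.2
        _ = _ := by ring

theorem al_lt (e f : ℕ) : al e * 3 ^ f < (al f + 1) * 3 ^ e := by
  rcases le_total e f with h | h
  · obtain ⟨d, rfl⟩ := Nat.exists_eq_add_of_le h
    have := (al_le e d).1
    calc al e * 3 ^ (e + d) = (al e * 3 ^ d) * 3 ^ e := by rw [pow_add]; ring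
      _ ≤ al (e + d) * 3 ^ e := Nat.mul_le_mul_right _ this
      _ < _ := Nat.mul_lt_mul_of_pos_right (Nat.lt_succ_self _) (by positivity)
  · obtain ⟨d, rfl⟩ := Nat.exists_eq_add_of_le h
    have := (al_le f d).2
    calc al (f + d) * 3 ^ f < (al (f + d) + 1) * 3 ^ f :=
          Nat.mul_lt_mul_of_pos_right (Nat.lt_succ_self _) (by positivity)
      _ ≤ ((al f + 1) * 3 ^ d) * 3 ^ f := Nat.mul_le_mul_right _ this
      _ = _ := by rw [pow_add]; ring

theorem Pf_div (e d s : ℕ) : Pf (e + d) s / 3 ^ d = Pf e s := by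
  induction d with
  | zero => simp
  | succ d ih =>
    have e1 : e + (d + 1) = e + d + 1 := rfl
    rw [e1, pow_succ, mul_comm, ← Nat.div_div_eq_div_mul]
    have : Pf (e + d + 1) s / 3 = Pf (e + d) s := by
      rw [Pf_succ]
      have := ch_le (3 * Pf (e + d) s) (Af (e + d) s) (Bf (e + d) s)
      omega
    rw [this, ih]

theorem Y_eq (n e : ℕ) (h : e + 1 ≤ n) : Y n e = Pf (e + 1) n := by
  obtain ⟨d, rfl⟩ := Nat.exists_eq_add_of_le h
  unfold Y yy
  have : X (e + 1 + d) = Pf (e + 1 + d) (e + 1 + d) := rfl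
  rw [this, pow_add 3 (e + 1) d, mul_comm (3 ^ (e + 1)) (3 ^ d),
    Nat.mul_div_mul_right _ _ (by positivity), Pf_div]

/-- the numbers below the limit -/
def Lo : Set ℕ := {n | ∃ e, X n * 3 ^ e < al e * 3 ^ n}
/-- the numbers above the limit -/
def Hi : Set ℕ := {n | ∃ e, (al e + 1) * 3 ^ n ≤ X n * 3 ^ e}

theorem meets (W : ℕ → Prop) (hW : REPred W) (hinf : ∀ N, ∃ n, N < n ∧ W n) :
    (∃ n ∈ Lo, W n) ∧ ∃ n ∈ Hi, W n := by
  classical
  obtain ⟨c, hc⟩ := Code.exists_code.1 (Partrec.nat_iff.1 (hW.map (Computable.const 0).to₂))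
  have hdom : ∀ n, W n ↔ ∃ s, inW (Encodable.encode c) s n = true := by
    intro n
    unfold inW
    have h1 : (Code.eval c n).Dom ↔ W n := by
      rw [hc]; simp [Part.assert]
    rw [← h1, Part.dom_iff_mem]
    have e2 : Denumerable.ofNat Code (Encodable.encode c) = c := Denumerable.ofNat_encode c
    rw [e2]
    constructor
    · rintro ⟨a, ha⟩
      obtain ⟨k, hk⟩ := Code.evaln_complete.1 ha
      exact ⟨k, Option.isSome_iff_exists.2 ⟨a, hk⟩⟩
    · rintro ⟨s, hs⟩
      obtain ⟨a, ha⟩ := Option.isSome_iff_exists.1 hs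
      exact ⟨a, Code.evaln_sound ha⟩
  set e := Encodable.encode c with he
  obtain ⟨n, hn, hWn⟩ := hinf (max (stabP (e + 1)).choose (e + 1))
  obtain ⟨s, hs⟩ := (hdom n).1 hWn
  have hY : Y n e = al (e + 1) := by
    rw [Y_eq n e (by omega), al_spec (e + 1) n (by omega)]
  set t := max (n + 1) s with ht
  have hst : inW e t n = true := inW_mono (le_max_right _ _) hs
  have hP : ch (3 * Pf e t) (Af e t) (Bf e t) = al (e + 1) := by
    rw [← Pf_succ]; exact al_spec (e + 1) t (by omega)
  have hne := ch_ne (3 * Pf e t) (Af e t) (Bf e t)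
  rw [hP] at hne
  have hal : al (e + 1) < 3 ^ (e + 1) := by
    rw [← al_spec (e + 1) t (by omega)]; exact Pf_lt _ _
  constructor
  · have h1 : Af e t ≤ Y n e := (amin_le t e t le_rfl).2.1 n (by omega) hst
    rw [hY] at h1
    rcases (amin_le t e t le_rfl).2.2 with h2 | ⟨m, hm, hw, h2⟩
    · have : Af e t = 3 ^ (e + 1) := h2
      omega
    · refine ⟨m, ⟨e + 1, ?_⟩, (hdom m).2 ⟨t, hw⟩⟩
      have h3 : Y m e < al (e + 1) := by
        have : Af e t = Y m e := h2
        have := hne.1
        omega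
      exact (Nat.div_lt_iff_lt_mul (by positivity)).1 h3
  · have h1 : Y n e ≤ Bf e t := (amax_le t e t le_rfl).1 n (by omega) hst
    rw [hY] at h1
    rcases (amax_le t e t le_rfl).2 with h2 | ⟨m, hm, hw, h2⟩
    · have : Bf e t = 0 := h2
      have := hne.2
      omega
    · refine ⟨m, ⟨e + 1, ?_⟩, (hdom m).2 ⟨t, hw⟩⟩
      have h3 : al (e + 1) + 1 ≤ Y m e := by
        have : Bf e t = Y m e := h2
        have := hne.2
        omega
      exact (Nat.le_div_iff_mul_le (by positivity)).1 h3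

/-! ### computability -/

theorem p_pow {α : Type} [Primcodable α] {f g : α → ℕ} (hf : Primrec f) (hg : Primrec g) :
    Primrec fun a => f a ^ g a := by
  have h : Primrec₂ fun a b : ℕ => a ^ b :=
    Primrec₂.unpaired'.1 Nat.Primrec.pow
  exact h.comp hf hg

theorem p_inW {α : Type} [Primcodable α] {f g h : α → ℕ} (hf : Primrec f) (hg : Primrec g)
    (hh : Primrec h) : Primrec fun a => inW (f a) (g a) (h a) := by
  unfold inW
  have h1 : Primrec fun a =>
      Code.evaln (g a) (Denumerable.ofNat Code (f a)) (h a) :=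
    Code.primrec_evaln.comp ((hg.pair ((Primrec.ofNat Code).comp hf)).pair hh)
  exact Primrec.option_isSome.comp h1

theorem p_yy {α : Type} [Primcodable α] {f g h : α → ℕ} (hf : Primrec f) (hg : Primrec g)
    (hh : Primrec h) : Primrec fun a => yy (f a) (g a) (h a) := by
  unfold yy
  exact Primrec.nat_div.comp (Primrec.nat_mul.comp hf (p_pow (Primrec.const 3) (Primrec.succ.comp hh)))
    (p_pow (Primrec.const 3) hg)

theorem p_amin {α : Type} [Primcodable α] {l : α → List ℕ} {e n : α → ℕ} (hl : Primrec l)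
    (he : Primrec e) (hn : Primrec n) : Primrec fun a => amin (l a) (e a) (n a) := by
  unfold amin
  refine Primrec.nat_rec' (h := fun a (p : ℕ × ℕ) => if inW (e a) (l a).length p.1 then
    min p.2 (yy ((l a).getD p.1 0) p.1 (e a)) else p.2) hn
    (p_pow (Primrec.const 3) (Primrec.succ.comp he)) ?_
  refine Primrec.ite (Primrec.eq.comp (p_inW (he.comp Primrec.fst)
    (Primrec.list_length.comp (hl.comp Primrec.fst)) (Primrec.fst.comp Primrec.snd))
    (Primrec.const true)) ?_ (Primrec.snd.comp Primrec.snd)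
  refine Primrec.nat_min.comp (Primrec.snd.comp Primrec.snd) (p_yy ?_ (Primrec.fst.comp Primrec.snd)
    (he.comp Primrec.fst))
  exact (Primrec.list_getD 0).comp (hl.comp Primrec.fst) (Primrec.fst.comp Primrec.snd)

theorem p_amax {α : Type} [Primcodable α] {l : α → List ℕ} {e n : α → ℕ} (hl : Primrec l)
    (he : Primrec e) (hn : Primrec n) : Primrec fun a => amax (l a) (e a) (n a) := by
  unfold amax
  refine Primrec.nat_rec' (h := fun a (p : ℕ × ℕ) => if inW (e a) (l a).length p.1 then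
    max p.2 (yy ((l a).getD p.1 0) p.1 (e a)) else p.2) hn (Primrec.const 0) ?_
  refine Primrec.ite (Primrec.eq.comp (p_inW (he.comp Primrec.fst)
    (Primrec.list_length.comp (hl.comp Primrec.fst)) (Primrec.fst.comp Primrec.snd))
    (Primrec.const true)) ?_ (Primrec.snd.comp Primrec.snd)
  refine Primrec.nat_max.comp (Primrec.snd.comp Primrec.snd) (p_yy ?_ (Primrec.fst.comp Primrec.snd)
    (he.comp Primrec.fst))
  exact (Primrec.list_getD 0).comp (hl.comp Primrec.fst) (Primrec.fst.comp Primrec.snd)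

theorem p_ch {α : Type} [Primcodable α] {f g h : α → ℕ} (hf : Primrec f) (hg : Primrec g)
    (hh : Primrec h) : Primrec fun a => ch (f a) (g a) (h a) := by
  unfold ch
  have h1 : PrimrecPred fun a => f a ≠ g a ∧ f a ≠ h a :=
    (Primrec.eq.comp hf hg).not.and (Primrec.eq.comp hf hh).not
  have h2 : PrimrecPred fun a => f a + 1 ≠ g a ∧ f a + 1 ≠ h a :=
    (Primrec.eq.comp (Primrec.succ.comp hf) hg).not.and (Primrec.eq.comp (Primrec.succ.comp hf) hh).not
  exact Primrec.ite h1 hf (Primrec.ite h2 (Primrec.succ.comp hf)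
    (Primrec.succ.comp (Primrec.succ.comp hf)))

theorem p_pre {α : Type} [Primcodable α] {l : α → List ℕ} {e : α → ℕ} (hl : Primrec l)
    (he : Primrec e) : Primrec fun a => pre (l a) (e a) := by
  unfold pre
  refine Primrec.nat_rec' (h := fun a (p : ℕ × ℕ) => ch (3 * p.2) (amin (l a) p.1 (l a).length)
    (amax (l a) p.1 (l a).length)) he (Primrec.const 0) ?_
  exact p_ch (Primrec.nat_mul.comp (Primrec.const 3) (Primrec.snd.comp Primrec.snd))
    (p_amin (hl.comp Primrec.fst) (Primrec.fst.comp Primrec.snd)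
      (Primrec.list_length.comp (hl.comp Primrec.fst)))
    (p_amax (hl.comp Primrec.fst) (Primrec.fst.comp Primrec.snd)
      (Primrec.list_length.comp (hl.comp Primrec.fst)))

theorem p_xs : Primrec xs := by
  unfold xs
  refine Primrec.nat_rec' (α := ℕ) (β := List ℕ) (h := fun _ (p : ℕ × List ℕ) => p.2 ++ [pre p.2 p.2.length])
    Primrec.id (Primrec.const []) ?_
  exact Primrec.list_concat.comp (Primrec.snd.comp Primrec.snd)
    (p_pre (Primrec.snd.comp Primrec.snd) (Primrec.list_length.comp (Primrec.snd.comp Primrec.snd)))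

theorem p_X : Primrec X := by
  unfold X
  exact p_pre p_xs Primrec.id

theorem t_ORD : Pool.Agent.Y579.ST.S_ORD := by
  let q : ℕ → ℚ := fun n => (X n : ℚ) / 3 ^ n
  let r : ℕ → ℕ → Bool := fun a b =>
    decide (X a * 3 ^ b < X b * 3 ^ a) || (decide (X a * 3 ^ b = X b * 3 ^ a) && decide (a < b))
  have hlt : ∀ a b, X a * 3 ^ b < X b * 3 ^ a ↔ q a < q b := by
    intro a b
    simp only [q]
    rw [div_lt_div_iff₀ (by positivity) (by positivity)]
    exact_mod_cast Iff.rfl
  have heq : ∀ a b, X a * 3 ^ b = X b * 3 ^ a ↔ q a = q b := by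
    intro a b
    simp only [q]
    rw [div_eq_div_iff (by positivity) (by positivity)]
    exact_mod_cast Iff.rfl
  have hr : ∀ a b, r a b = true ↔ (q a < q b ∨ (q a = q b ∧ a < b)) := by
    intro a b
    simp only [r, Bool.or_eq_true, Bool.and_eq_true, decide_eq_true_eq, hlt, heq]
  refine ⟨r, Lo, Hi, ?_, ?_, ?_, ?_, ?_, meets⟩
  · have hm : ∀ {f g : ℕ × ℕ → ℕ}, Primrec f → Primrec g →
        Primrec fun p : ℕ × ℕ => X (f p) * 3 ^ (g p) := fun hf hg =>
      Primrec.nat_mul.comp (p_X.comp hf) (p_pow (Primrec.const 3) hg)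
    have h1 : PrimrecPred fun p : ℕ × ℕ => X p.1 * 3 ^ p.2 < X p.2 * 3 ^ p.1 :=
      Primrec.nat_lt.comp (hm Primrec.fst Primrec.snd) (hm Primrec.snd Primrec.fst)
    have h2 : PrimrecPred fun p : ℕ × ℕ => X p.1 * 3 ^ p.2 = X p.2 * 3 ^ p.1 :=
      Primrec.eq.comp (hm Primrec.fst Primrec.snd) (hm Primrec.snd Primrec.fst)
    have h3 : PrimrecPred fun p : ℕ × ℕ => p.1 < p.2 :=
      Primrec.nat_lt.comp Primrec.fst Primrec.snd
    have h4 := h1.or (h2.and h3)
    refine Primrec.to_comp ?_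
    have h5 := h4.decide
    refine h5.of_eq fun p => ?_
    simp only [r]
    by_cases a1 : X p.1 * 3 ^ p.2 < X p.2 * 3 ^ p.1 <;>
      by_cases a2 : X p.1 * 3 ^ p.2 = X p.2 * 3 ^ p.1 <;>
      by_cases a3 : p.1 < p.2 <;> simp [a1, a2, a3]
  · intro a
    have := hr a a
    rw [Bool.eq_false_iff, Ne, this]
    simp
  · intro a b c h1 h2
    rw [hr] at *
    rcases h1 with h1 | ⟨h1, h1'⟩ <;> rcases h2 with h2 | ⟨h2, h2'⟩
    · exact Or.inl (h1.trans h2)
    · exact Or.inl (h2 ▸ h1)
    · exact Or.inl (h1 ▸ h2)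
    · exact Or.inr ⟨h1.trans h2, h1'.trans h2'⟩
  · intro a b hab
    rw [hr, hr]
    rcases lt_trichotomy (q a) (q b) with h | h | h
    · exact Or.inl (Or.inl h)
    · rcases lt_or_gt_of_ne hab with h' | h'
      · exact Or.inl (Or.inr ⟨h, h'⟩)
      · exact Or.inr (Or.inr ⟨h.symm, h'⟩)
    · exact Or.inr (Or.inl h)
  · rintro a ⟨e, he⟩ b ⟨f, hf⟩
    rw [hr]
    left
    have h1 : q a < (al e : ℚ) / 3 ^ e := by
      simp only [q]
      rw [div_lt_div_iff₀ (by positivity) (by positivity)]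
      exact_mod_cast he
    have h2 : (al e : ℚ) / 3 ^ e < ((al f + 1 : ℕ) : ℚ) / 3 ^ f := by
      rw [div_lt_div_iff₀ (by positivity) (by positivity)]
      exact_mod_cast al_lt e f
    have h3 : ((al f + 1 : ℕ) : ℚ) / 3 ^ f ≤ q b := by
      simp only [q]
      rw [div_le_div_iff₀ (by positivity) (by positivity)]
      exact_mod_cast hf
    exact h1.trans (h2.trans_le h3)

end Pool.Agent.Y548.ST
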